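import Pool.Agent.Y561.MI.Pat

set_option autoImplicit false

/-! Monadically independent classes of graphs: completeness, for theories and for Borel classes. -/

namespace Pool.Agent.Y561.MI

open FirstOrder FirstOrder.Language
open Pool.Agent.W889.FO
open Pool.Agent.W889.FO.StE (LG gd siso_gd)
open Pool.Agent.W889.VC (BinStr BIso Faithful)
open Pool.Agent.TH783 (FC.gc FC.cg)

variable {r : ℕ} {f : ℕ → ℕ → Prop}

/-- the symmetric closure -/
def sy (f : ℕ → ℕ → Prop) (a b : ℕ) : Prop := f a b ∨ f b a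

theorem sy_symm (a b : ℕ) (h : sy f a b) : sy f b a := h.symm

/-- unordered crossings -/
def cv : Pool.Agent.TH783.FC.Vx r → Vertex ℕ r
  | .row i => .row i
  | .col j => .col j
  | .pt i j t => .pt i j t

theorem cv_inj : Function.Injective (cv : Pool.Agent.TH783.FC.Vx r → Vertex ℕ r) := by
  intro u v h
  cases u <;> cases v <;> simp_all [cv]

theorem cv_lay (u : Pool.Agent.TH783.FC.Vx r) : (cv u).layer = u.lay := by
  cases u <;> rfl

theorem cv_star (u v : Pool.Agent.TH783.FC.Vx r) :
    Kind.star.edge (cv u) (cv v) ↔ u.edge false v := by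
  cases u <;> cases v <;>
    simp [cv, Kind.edge, Pool.Agent.TH783.FC.Vx.edge]

theorem cv_clique (u v : Pool.Agent.TH783.FC.Vx r) :
    Kind.clique.edge (cv u) (cv v) ↔ u.edge true v := by
  cases u <;> cases v <;>
    simp [cv, Kind.edge, Pool.Agent.TH783.FC.Vx.edge]

/-- half graph crossings -/
def ch : Pool.Agent.TH783.MD.Vx ℚ r → Vertex ℚ r
  | .row i => .row i
  | .col j => .col j
  | .pt i j t => .pt i j t

theorem ch_inj : Function.Injective (ch : Pool.Agent.TH783.MD.Vx ℚ r → Vertex ℚ r) := by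
  intro u v h
  cases u <;> cases v <;> simp_all [ch]

theorem ch_lay (u : Pool.Agent.TH783.MD.Vx ℚ r) : (ch u).layer = u.lay := by
  cases u <;> rfl

theorem ch_half (u v : Pool.Agent.TH783.MD.Vx ℚ r) :
    Kind.half.edge (ch u) (ch v) ↔ Pool.Agent.TH783.MD.he u v := by
  cases u <;> cases v <;>
    simp [ch, Kind.edge, Pool.Agent.TH783.MD.he]

variable {𝒞 : (n : ℕ) → SimpleGraph (Fin n) → Prop}

theorem loc_star (hC : ∀ n, Contains 𝒞 (crossing .star n r f))
    {S : LG.Structure ℕ} (h : Pool.Agent.TH783.FC.Sub r false (sy f) (gd S)) :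
    LocallyIn 𝒞 (gd S) := by
  obtain ⟨g, h1, h2⟩ := h
  refine contains_crossing hC (fun u => cv (g u)) (cv_inj.comp h1) fun u v => ?_
  rw [h2, cv_inj.ne_iff, cv_star, cv_star, cv_lay, cv_lay]
  exact Iff.rfl

theorem loc_clique (hC : ∀ n, Contains 𝒞 (crossing .clique n r f))
    {S : LG.Structure ℕ} (h : Pool.Agent.TH783.FC.Sub r true (sy f) (gd S)) :
    LocallyIn 𝒞 (gd S) := by
  obtain ⟨g, h1, h2⟩ := h
  refine contains_crossing hC (fun u => cv (g u)) (cv_inj.comp h1) fun u v => ?_
  rw [h2, cv_inj.ne_iff, cv_clique, cv_clique, cv_lay, cv_lay]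
  exact Iff.rfl

theorem loc_half (hr : 1 ≤ r) (hC : ∀ n, Contains 𝒞 (crossing .half n r f))
    {S : LG.Structure ℕ} (h : Pool.Agent.TH783.MD.WS r false (sy f) S) :
    LocallyIn 𝒞 (gd S) := by
  obtain ⟨g, h1, h2⟩ := h.half hr
  refine contains_crossing hC (fun u => ch (g u)) (ch_inj.comp h1) fun u v => ?_
  rw [h2, ch_inj.ne_iff, ch_half, ch_half, ch_lay, ch_lay]
  exact Iff.rfl

theorem loc_grid (hC : ∀ n, Contains 𝒞 (grid n))
    {S : LG.Structure ℕ} (h : Pool.Agent.TH783.MD.WS 1 true (fun _ _ => False) S) :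
    LocallyIn 𝒞 (gd S) := by
  obtain ⟨g, h1, h2⟩ := h.grid
  exact contains_grid hC g h1 h2

/-- Borel classes -/
theorem faithful (h : HasPatterns 𝒞) :
    Faithful BIso (fun y => LocallyIn 𝒞 (fun u v => y u v = true)) := by
  rcases h with ⟨k, r, f, hr, h⟩ | h
  · cases k with
    | star =>
      exact Pool.Agent.TH783.MD.faithful_wf hr sy_symm fun y hy => loc_star h (hy.sub hr)
    | clique =>
      exact Pool.Agent.TH783.MD.faithful_wf hr sy_symm fun y hy => loc_clique h (hy.sub hr)
    | half =>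
      exact Pool.Agent.TH783.MD.faithful_ws hr sy_symm (fun h => absurd h (by decide))
        fun y hy => loc_half hr h hy
  · exact Pool.Agent.TH783.MD.faithful_ws le_rfl (f := fun _ _ => False) (fun _ _ h => h)
      (fun _ => rfl) fun y hy => loc_grid h hy

/-- theories -/
theorem theories (h : HasPatterns 𝒞)
    (hV : ∀ T' : LG.Theory, T'.IsComplete → (∀ S : LG.Structure ℕ,
      @Theory.Model LG ℕ S T' → LocallyIn 𝒞 (gd S)) → VaughtF LG T')
    (L : FirstOrder.Language.{0, 0}) (hL : Countable L.Symbols) (T : L.Theory) :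
    VaughtF L T := by
  rcases h with ⟨k, r, f, hr, h⟩ | h
  · cases k with
    | star =>
      exact Pool.Agent.TH783.FC.main hr sy_symm
        (fun T' h1 h2 => hV T' h1 fun S hS => loc_star h (h2 S hS)) L hL T
    | clique =>
      exact Pool.Agent.TH783.FC.main hr sy_symm
        (fun T' h1 h2 => hV T' h1 fun S hS => loc_clique h (h2 S hS)) L hL T
    | half =>
      exact Pool.Agent.TH783.MD.main hr sy_symm (fun h => absurd h (by decide))
        (fun T' h1 h2 => hV T' h1 fun S hS => loc_half hr h (h2 S hS)) L hL T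
  · exact Pool.Agent.TH783.MD.main le_rfl (f := fun _ _ => False) (fun _ _ h => h)
      (fun _ => rfl) (fun T' h1 h2 => hV T' h1 fun S hS => loc_grid h (h2 S hS)) L hL T

end Pool.Agent.Y561.MI
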