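import Pool.Agent.Y561.MI.Core
import Pool.Agent.TH783.IS.Main

set_option autoImplicit false

/-! One forbidden induced subgraph. -/

namespace Pool.Agent.Y561.MI

open Pool.Agent.TH783.IS (Tr Co Sp emb)

variable {V : Type} (H : SimpleGraph V)

/-- the finite graphs without induced subgraph `H` -/
def Free (n : ℕ) (G : SimpleGraph (Fin n)) : Prop := ¬ Nonempty (H ↪g G)

variable {H}

theorem star_step {n r : ℕ} {u v : Vertex (Fin n) r} (h : Kind.star.edge u v) :
    v.layer = u.layer + 1 := by
  rcases u with i | i | ⟨i, j, t⟩ <;> rcases v with i' | i' | ⟨i', j', t'⟩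
  · exact h.elim
  · exact h.elim
  · obtain ⟨-, h⟩ := h
    show (t' : ℕ) + 1 = 0 + 1
    rw [h]
  · exact h.elim
  · exact h.elim
  · exact h.elim
  · exact h.elim
  · obtain ⟨-, h⟩ := h
    show r + 1 = (t : ℕ) + 1 + 1
    omega
  · rcases h with ⟨-, -, h⟩ | h
    · show (t' : ℕ) + 1 = (t : ℕ) + 1 + 1
      rw [h]
    · exact h.elim

theorem star_par {n r : ℕ} {u v : Vertex (Fin n) r}
    (h : Kind.star.edge u v ∨ Kind.star.edge v u) : u.layer % 2 ≠ v.layer % 2 := by
  rcases h with h | h <;> have := star_step h <;> omega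

theorem pat_tr (h : Tr H) (n : ℕ) : Contains (Free H) (crossing .star n 1 fun _ _ => False) := by
  rintro m f hf ⟨e⟩
  obtain ⟨i, j, k, h1, h2, h3⟩ := h
  have key : ∀ a b, H.Adj a b → (f (e a)).layer % 2 ≠ (f (e b)).layer % 2 := by
    intro a b hab
    have h4 : (crossing .star n 1 fun _ _ => False).Adj (f (e a)) (f (e b)) :=
      e.map_rel_iff.2 hab
    obtain ⟨-, h5⟩ := h4
    refine star_par ?_
    by_contra h6
    exact h5 ⟨fun h => (h6 h).elim, fun h => by rcases h with h | h <;> exact h.elim⟩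
  have e1 := key i j h1
  have e2 := key j k h2
  have e3 := key i k h3
  omega

theorem pat_co (h : Co H) (n : ℕ) : Contains (Free H) (crossing .star n 1 fun _ _ => True) := by
  rintro m f hf ⟨e⟩
  obtain ⟨i, j, k, n1, n2, n3, h1, h2, h3⟩ := h
  have key : ∀ a b, a ≠ b → ¬ H.Adj a b → (f (e a)).layer % 2 ≠ (f (e b)).layer % 2 := by
    intro a b hne hab
    have h4 : ¬ (crossing .star n 1 fun _ _ => True).Adj (f (e a)) (f (e b)) := fun h =>
      hab (e.map_rel_iff.1 h)
    refine star_par ?_
    by_contra h6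
    exact h4 ⟨fun h => hne (e.injective (hf h)), fun h => h6 (h.2 (Or.inl trivial))⟩
  have e1 := key i j n1 h1
  have e2 := key j k n2 h2
  have e3 := key i k n3 h3
  omega

theorem star_one {n : ℕ} {u v : Vertex (Fin n) 1}
    (h : Kind.star.edge u v ∨ Kind.star.edge v u) :
    (u.layer = 1 ∧ v.layer ≠ 1) ∨ (u.layer ≠ 1 ∧ v.layer = 1) := by
  have hu : u.layer ≤ 2 := by
    rcases u with i | i | ⟨i, j, t⟩ <;> simp only [Vertex.layer] <;> omega
  have hv : v.layer ≤ 2 := by
    rcases v with i | i | ⟨i, j, t⟩ <;> simp only [Vertex.layer] <;> omega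
  rcases h with h | h <;> have := star_step h <;> omega

theorem pat_sp (h : ¬ Sp H) (n : ℕ) :
    Contains (Free H) (crossing .star n 1 fun a b => a = 1 ∧ b = 1) := by
  rintro m f hf ⟨e⟩
  refine h ⟨fun a => (f (e a)).layer = 1, fun a b ha hb hne => ?_, fun a b ha hb hab => ?_⟩
  · refine e.map_rel_iff.1 ?_
    refine ⟨fun h => hne (e.injective (hf h)), fun h5 => ?_⟩
    rcases star_one (h5.2 (Or.inl ⟨ha, hb⟩)) with h6 | h6
    · exact h6.2 hb
    · exact h6.1 ha
  · have h4 : (crossing .star n 1 fun a b => a = 1 ∧ b = 1).Adj (f (e a)) (f (e b)) :=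
      e.map_rel_iff.2 hab
    obtain ⟨-, h5⟩ := h4
    refine h5 ⟨fun h6 => ?_, fun h6 => ?_⟩
    · rcases star_one h6 with h7 | h7
      · exact absurd h7.1 ha
      · exact absurd h7.2 hb
    · rcases h6 with h6 | h6
      · exact absurd h6.1 ha
      · exact absurd h6.1 hb

theorem has_patterns (h : ¬ Nonempty (H ↪g SimpleGraph.pathGraph 4)) :
    HasPatterns (Free H) := by
  by_cases h1 : Tr H
  · exact Or.inl ⟨_, _, _, le_rfl, pat_tr h1⟩
  by_cases h2 : Co H
  · exact Or.inl ⟨_, _, _, le_rfl, pat_co h2⟩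
  by_cases h3 : Sp H
  · exact absurd (emb h1 h2 h3) h
  · exact Or.inl ⟨_, _, _, le_rfl, pat_sp h3⟩

/-- locally `H`-free is `H`-free -/
theorem locally_free [Finite V] {E : ℕ → ℕ → Prop} : LocallyIn (Free H) E ↔
    (∀ u, ¬ E u u) ∧ (∀ u v, E u v → E v u) ∧
      ¬ ∃ f : V → ℕ, Function.Injective f ∧ ∀ u v, H.Adj u v ↔ E (f u) (f v) := by
  classical
  constructor
  · rintro ⟨G, hG, hC⟩
    refine ⟨fun u h => G.irrefl ((hG u u).2 h), fun u v h => (hG v u).1 ((hG u v).2 h).symm, ?_⟩
    rintro ⟨f, hf, hf'⟩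
    let e := Finite.equivFin V
    refine hC (Nat.card V) (fun i => f (e.symm i)) (hf.comp e.symm.injective)
      ⟨⟨⟨e, e.injective⟩, ?_⟩⟩
    intro a b
    show G.Adj (f (e.symm (e a))) (f (e.symm (e b))) ↔ H.Adj a b
    rw [e.symm_apply_apply, e.symm_apply_apply, hG, hf']
  · rintro ⟨h1, h2, h3⟩
    refine ⟨⟨E, ⟨fun u v h => h2 u v h⟩, ⟨fun u h => h1 u h⟩⟩, fun u v => Iff.rfl, ?_⟩
    rintro m f hf ⟨e⟩
    exact h3 ⟨fun a => f (e a), hf.comp e.injective, fun a b => e.map_rel_iff.symm⟩

/-! Distances in graphs without an induced path on four vertices. -/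

/-- distances in graphs without an induced path on four vertices -/
theorem dist_le_two {W : Type} {G : SimpleGraph W}
    (hP : ¬ Nonempty (SimpleGraph.pathGraph 4 ↪g G)) {a b : W} (h : G.Reachable a b) :
    G.dist a b ≤ 2 := by
  by_contra hlt
  rw [not_le] at hlt
  obtain ⟨p, hp⟩ := h.exists_walk_length_eq_dist
  have hlen : 2 < p.length := by omega
  -- the vertices of a shortest walk
  have key : ∀ i j, i ≤ p.length → j ≤ p.length → G.dist (p.getVert i) (p.getVert j) = j - i ∨
      j < i := by
    intro i j hi hj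
    by_cases hij : j < i
    · exact Or.inr hij
    left
    rw [not_lt] at hij
    have h1 : G.dist a (p.getVert i) ≤ i := by
      have := SimpleGraph.dist_le (p.take i)
      rwa [SimpleGraph.Walk.take_length, min_eq_left hi] at this
    have h2 : G.dist (p.getVert j) b ≤ p.length - j := by
      have := SimpleGraph.dist_le (p.drop j)
      rwa [SimpleGraph.Walk.drop_length] at this
    have h3 : G.dist (p.getVert i) (p.getVert j) ≤ j - i := by
      have h4 := SimpleGraph.dist_le ((p.drop i).take (j - i))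
      rw [SimpleGraph.Walk.take_length, SimpleGraph.Walk.drop_length] at h4
      have h5 : (p.drop i).getVert (j - i) = p.getVert j := by
        rw [SimpleGraph.Walk.drop_getVert]
        congr 1
        omega
      rw [h5] at h4
      omega
    have r1 : G.Reachable a (p.getVert i) := ⟨p.take i⟩
    have r2 : G.Reachable (p.getVert j) b := ⟨p.drop j⟩
    have r3 : G.Reachable (p.getVert i) (p.getVert j) := r1.symm.trans (h.trans r2.symm)
    have h6 : G.dist a b ≤ G.dist a (p.getVert i) + G.dist (p.getVert i) (p.getVert j) +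
        G.dist (p.getVert j) b := by
      obtain ⟨w1, hw1⟩ := r1.exists_walk_length_eq_dist
      obtain ⟨w2, hw2⟩ := r3.exists_walk_length_eq_dist
      obtain ⟨w3, hw3⟩ := r2.exists_walk_length_eq_dist
      have := SimpleGraph.dist_le ((w1.append w2).append w3)
      rw [SimpleGraph.Walk.length_append, SimpleGraph.Walk.length_append] at this
      omega
    omega
  have hd : ∀ i j : Fin 4, i < j → G.dist (p.getVert i) (p.getVert j) = (j : ℕ) - i := by
    intro i j hij
    have hij' : (i : ℕ) < j := hij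
    rcases key i j (by omega) (by omega) with h1 | h1
    · exact h1
    · omega
  have hadj : ∀ i j : Fin 4, i < j → (G.Adj (p.getVert i) (p.getVert j) ↔ (i : ℕ) + 1 = j) := by
    intro i j hij
    have hij' : (i : ℕ) < j := hij
    rw [← SimpleGraph.dist_eq_one_iff_adj, hd i j hij]
    omega
  refine hP ⟨⟨⟨fun i => p.getVert i, ?_⟩, ?_⟩⟩
  · intro i j hij
    have hij : p.getVert i = p.getVert j := hij
    rcases lt_trichotomy i j with h1 | h1 | h1
    · have h2 := hd i j h1
      have h3 : (i : ℕ) < j := h1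
      rw [hij, SimpleGraph.dist_self] at h2
      omega
    · exact h1
    · have h2 := hd j i h1
      have h3 : (j : ℕ) < i := h1
      rw [hij, SimpleGraph.dist_self] at h2
      omega
  · intro i j
    show G.Adj (p.getVert i) (p.getVert j) ↔ (SimpleGraph.pathGraph 4).Adj i j
    rw [SimpleGraph.pathGraph_adj]
    rcases lt_trichotomy i j with h1 | h1 | h1
    · rw [hadj i j h1]
      have h3 : (i : ℕ) < j := h1
      omega
    · subst h1
      simp
    · rw [G.adj_comm, hadj j i h1]
      have h3 : (j : ℕ) < i := h1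
      omega

/-- the distance in a graph without an induced path on four vertices -/
theorem dist_eq {W : Type} {G : SimpleGraph W}
    (hP : ¬ Nonempty (SimpleGraph.pathGraph 4 ↪g G)) {a b : W} (h : G.Reachable a b)
    [Decidable (a = b)] [Decidable (G.Adj a b)] :
    G.dist a b = if a = b then 0 else if G.Adj a b then 1 else 2 := by
  have h1 := dist_le_two hP h
  by_cases h2 : a = b
  · rw [if_pos h2, h2, SimpleGraph.dist_self]
  · rw [if_neg h2]
    by_cases h3 : G.Adj a b
    · rw [if_pos h3]
      exact SimpleGraph.dist_eq_one_iff_adj.2 h3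
    · rw [if_neg h3]
      have h4 : 0 < G.dist a b := h.pos_dist_of_ne h2
      have h5 : G.dist a b ≠ 1 := fun h => h3 (SimpleGraph.dist_eq_one_iff_adj.1 h)
      omega

/-- graphs without an induced path on four vertices are distance hereditary -/
theorem dist_her {W : Type} {G : SimpleGraph W}
    (hP : ¬ Nonempty (SimpleGraph.pathGraph 4 ↪g G)) (s : Set W)
    (hs : (G.induce s).Connected) (a b : s) : (G.induce s).dist a b = G.dist a b := by
  classical
  have hP' : ¬ Nonempty (SimpleGraph.pathGraph 4 ↪g G.induce s) := by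
    rintro ⟨e⟩
    exact hP ⟨(SimpleGraph.Embedding.induce s).comp e⟩
  have h1 : (G.induce s).Reachable a b := hs.preconnected a b
  have h2 : G.Reachable (a : W) b := h1.map (SimpleGraph.Embedding.induce s).toHom
  rw [dist_eq hP' h1, dist_eq hP h2]
  have e1 : (a = b) ↔ ((a : W) = b) := Subtype.ext_iff
  have e2 : (G.induce s).Adj a b ↔ G.Adj (a : W) b := Iff.rfl
  by_cases h3 : a = b
  · rw [if_pos h3, if_pos (e1.1 h3)]
  · rw [if_neg h3, if_neg (fun h => h3 (e1.2 h))]
    by_cases h4 : G.Adj (a : W) b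
    · rw [if_pos h4, if_pos (e2.2 h4)]
    · rw [if_neg h4, if_neg (fun h => h4 (e2.1 h))]

end Pool.Agent.Y561.MI
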