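import Pool.Agent.TH783.MD.Bor

set_option autoImplicit false

/-! Flipped crossings and comparability grids: finite patterns. -/

namespace Pool.Agent.Y561.MI

open FirstOrder FirstOrder.Language
open Pool.Agent.W889.FO.StE (LG gd siso_gd)
open Pool.Agent.W889.VC (BinStr BIso Faithful)
open Pool.Agent.TH783 (FC.Vx)

/-- The vertices of a crossing over the index set `ι`: the rows, the columns, and the inner vertices
`pt i j 0, ..., pt i j (r - 1)` of a path between the row `i` and the column `j`. -/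
inductive Vertex (ι : Type) (r : ℕ) : Type
  | row (i : ι) : Vertex ι r
  | col (j : ι) : Vertex ι r
  | pt (i j : ι) (t : Fin r) : Vertex ι r

/-- The layer of a vertex: `0` for the rows, `1, ..., r` for the inner vertices, `r + 1` for the
columns. -/
def Vertex.layer {ι : Type} {r : ℕ} : Vertex ι r → ℕ
  | row _ => 0
  | pt _ _ t => (t : ℕ) + 1
  | col _ => r + 1

/-- The three kinds of crossings. -/
inductive Kind
  | star | clique | half

/-- The edges, directed from lower to higher layers (or inside a layer). -/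
def Kind.edge {ι : Type} [LinearOrder ι] {r : ℕ} (k : Kind) : Vertex ι r → Vertex ι r → Prop
  | .row i, .pt i' _ t => (match k with | .half => i ≤ i' | _ => i = i') ∧ (t : ℕ) = 0
  | .pt i j t, .pt i' j' t' => (i = i' ∧ j = j' ∧ (t' : ℕ) = t + 1) ∨
      (match k with
        | .clique => (i = i' ∧ (t : ℕ) = 0 ∧ (t' : ℕ) = 0) ∨
            (j = j' ∧ (t : ℕ) + 1 = r ∧ (t' : ℕ) + 1 = r)
        | _ => False)
  | .pt _ j t, .col j' => (match k with | .half => j' ≤ j | _ => j = j') ∧ (t : ℕ) + 1 = r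
  | _, _ => False

/-- The crossing with `n` rows and `n` columns, paths with `r` inner vertices, and all pairs
of vertices in layers `a, b` with `f a b` or `f b a` flipped. -/
def crossing (k : Kind) (n r : ℕ) (f : ℕ → ℕ → Prop) : SimpleGraph (Vertex (Fin n) r) where
  Adj u v := u ≠ v ∧ ¬ ((k.edge u v ∨ k.edge v u) ↔ (f u.layer v.layer ∨ f v.layer u.layer))
  symm := ⟨fun u v h => ⟨h.1.symm, fun h' => h.2 (by rw [or_comm, h', or_comm])⟩⟩
  loopless := ⟨fun _ h => h.1 rfl⟩

/-- The comparability grid with `n` rows and `n` columns. -/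
def grid (n : ℕ) : SimpleGraph (Fin n × Fin n) where
  Adj u v := u ≠ v ∧ (u.1 = v.1 ∨ u.2 = v.2 ∨ (u.1 < v.1 ↔ u.2 < v.2))
  symm := ⟨fun u v h => by
    obtain ⟨h1, h2⟩ := h
    refine ⟨h1.symm, ?_⟩
    rcases h2 with h2 | h2 | h2
    · exact Or.inl h2.symm
    · exact Or.inr (Or.inl h2.symm)
    · by_cases h3 : u.1 = v.1
      · exact Or.inl h3.symm
      · by_cases h4 : u.2 = v.2
        · exact Or.inr (Or.inl h4.symm)
        · refine Or.inr (Or.inr ?_)
          rw [lt_iff_not_ge, lt_iff_not_ge (a := v.2), not_iff_not, le_iff_lt_or_eq,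
            le_iff_lt_or_eq]
          tauto⟩
  loopless := ⟨fun _ h => h.1 rfl⟩

/-- `𝒞` contains all finite induced subgraphs of `G` (with all numberings of the vertices). -/
def Contains (𝒞 : (n : ℕ) → SimpleGraph (Fin n) → Prop) {V : Type} (G : SimpleGraph V) : Prop :=
  ∀ (n : ℕ) (f : Fin n → V), Function.Injective f → 𝒞 n (G.comap f)

/-- For some kind, some `r ≥ 1` and some `f`, the class `𝒞` contains all crossings, or it contains
all comparability grids. -/
def HasPatterns (𝒞 : (n : ℕ) → SimpleGraph (Fin n) → Prop) : Prop :=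
  (∃ (k : Kind) (r : ℕ) (f : ℕ → ℕ → Prop), 1 ≤ r ∧ ∀ n, Contains 𝒞 (crossing k n r f)) ∨
  ∀ n, Contains 𝒞 (grid n)

/-- `E` is the adjacency relation of a graph all of whose finite induced subgraphs belong to
`𝒞`. -/
def LocallyIn (𝒞 : (n : ℕ) → SimpleGraph (Fin n) → Prop) (E : ℕ → ℕ → Prop) : Prop :=
  ∃ G : SimpleGraph ℕ, (∀ u v, G.Adj u v ↔ E u v) ∧ Contains 𝒞 G

/-- finite sets of a linear order, numbered increasingly -/
theorem numbering {ι : Type} [LinearOrder ι] (S : Finset ι) : ∃ (n : ℕ) (ρ : ι → Fin n),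
    ∀ i ∈ S, ∀ j ∈ S, (ρ i < ρ j ↔ i < j) := by
  refine ⟨S.card + 1, fun i => ⟨(S.filter (· < i)).card,
    Nat.lt_succ_of_le (Finset.card_le_card (Finset.filter_subset _ _))⟩, fun i hi j hj => ?_⟩
  have key : ∀ i ∈ S, ∀ j ∈ S, i < j →
      (S.filter (· < i)).card < (S.filter (· < j)).card := by
    intro i hi j hj hij
    refine Finset.card_lt_card ⟨fun x hx => ?_, fun h => ?_⟩
    · rw [Finset.mem_filter] at hx ⊢
      exact ⟨hx.1, hx.2.trans hij⟩
    · have h1 := h (Finset.mem_filter.2 ⟨hi, hij⟩)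
      rw [Finset.mem_filter] at h1
      exact lt_irrefl _ h1.2
  rw [Fin.mk_lt_mk]
  constructor
  · intro h
    by_contra h1
    rcases (not_lt.1 h1).lt_or_eq with h2 | h2
    · exact lt_asymm h (key j hj i hi h2)
    · rw [h2] at h
      exact lt_irrefl _ h
  · exact key i hi j hj

variable {r : ℕ}

/-- indices of a vertex -/
def Vertex.idx {ι : Type} [DecidableEq ι] : Vertex ι r → Finset ι
  | row i => {i}
  | col j => {j}
  | pt i j _ => {i, j}

/-- renaming indices -/
def Vertex.map {ι κ : Type} (ρ : ι → κ) : Vertex ι r → Vertex κ r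
  | row i => row (ρ i)
  | col j => col (ρ j)
  | pt i j t => pt (ρ i) (ρ j) t

theorem Vertex.layer_map {ι κ : Type} (ρ : ι → κ) (u : Vertex ι r) :
    (u.map ρ).layer = u.layer := by
  cases u <;> rfl

section

variable {ι κ : Type} [LinearOrder ι] [LinearOrder κ] {S : Finset ι} {ρ : ι → κ}
  (h : ∀ i ∈ S, ∀ j ∈ S, (ρ i < ρ j ↔ i < j))

include h

theorem eq_num {i j : ι} (hi : i ∈ S) (hj : j ∈ S) : ρ i = ρ j ↔ i = j := by
  constructor
  · intro e
    rcases lt_trichotomy i j with h1 | h1 | h1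
    · have := (h i hi j hj).2 h1
      rw [e] at this
      exact (lt_irrefl _ this).elim
    · exact h1
    · have := (h j hj i hi).2 h1
      rw [e] at this
      exact (lt_irrefl _ this).elim
  · rintro rfl
    rfl

theorem le_num {i j : ι} (hi : i ∈ S) (hj : j ∈ S) : ρ i ≤ ρ j ↔ i ≤ j := by
  rw [← not_lt, ← not_lt, h j hj i hi]

theorem map_inj {u v : Vertex ι r} (hu : u.idx ⊆ S) (hv : v.idx ⊆ S) :
    u.map ρ = v.map ρ ↔ u = v := by
  constructor
  · intro e
    rcases u with i | i | ⟨i, j, t⟩ <;> rcases v with i' | i' | ⟨i', j', t'⟩ <;>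
      simp only [Vertex.map, Vertex.row.injEq, Vertex.col.injEq, Vertex.pt.injEq, reduceCtorEq,
        Vertex.idx, Finset.singleton_subset_iff, Finset.insert_subset_iff] at e hu hv ⊢
    · exact (eq_num h hu hv).1 e
    · exact (eq_num h hu hv).1 e
    · exact ⟨(eq_num h hu.1 hv.1).1 e.1, (eq_num h hu.2 hv.2).1 e.2.1, e.2.2⟩
  · rintro rfl
    rfl

theorem edge_num (k : Kind) {u v : Vertex ι r} (hu : u.idx ⊆ S) (hv : v.idx ⊆ S) :
    k.edge (u.map ρ) (v.map ρ) ↔ k.edge u v := by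
  rcases u with i | i | ⟨i, j, t⟩ <;> rcases v with i' | i' | ⟨i', j', t'⟩ <;>
    simp only [Vertex.idx, Finset.singleton_subset_iff, Finset.insert_subset_iff] at hu hv <;>
    try exact Iff.rfl
  · cases k with
    | star => exact and_congr_left' (eq_num h hu hv.1)
    | clique => exact and_congr_left' (eq_num h hu hv.1)
    | half => exact and_congr_left' (le_num h hu hv.1)
  · cases k with
    | star => exact and_congr_left' (eq_num h hu.2 hv)
    | clique => exact and_congr_left' (eq_num h hu.2 hv)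
    | half => exact and_congr_left' (le_num h hv hu.2)
  · have e1 := eq_num h hu.1 hv.1
    have e2 := eq_num h hu.2 hv.2
    cases k <;> simp only [Kind.edge, Vertex.map, e1, e2]

end

/-- infinite crossings -/
theorem contains_crossing {𝒞 : (n : ℕ) → SimpleGraph (Fin n) → Prop} {k : Kind}
    {f : ℕ → ℕ → Prop} (hC : ∀ n, Contains 𝒞 (crossing k n r f)) {ι : Type} [LinearOrder ι]
    {E : ℕ → ℕ → Prop} (g : ℕ → Vertex ι r) (hg : Function.Injective g)
    (hE : ∀ u v, E u v ↔ g u ≠ g v ∧ ¬ ((k.edge (g u) (g v) ∨ k.edge (g v) (g u)) ↔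
      (f (g u).layer (g v).layer ∨ f (g v).layer (g u).layer))) : LocallyIn 𝒞 E := by
  classical
  refine ⟨⟨E, ⟨fun u v h => ?_⟩, ⟨fun u h => ((hE u u).1 h).1 rfl⟩⟩, fun u v => Iff.rfl, ?_⟩
  · rw [hE] at h ⊢
    exact ⟨h.1.symm, fun h' => h.2 (by rw [or_comm, h', or_comm])⟩
  · intro m q hq
    obtain ⟨n, ρ, hρ⟩ := numbering (Finset.univ.biUnion fun i : Fin m => (g (q i)).idx)
    have hsub : ∀ i : Fin m, (g (q i)).idx ⊆ Finset.univ.biUnion
        fun i : Fin m => (g (q i)).idx := fun i => Finset.subset_biUnion_of_mem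
          (fun i : Fin m => (g (q i)).idx) (Finset.mem_univ i)
    have h1 := hC n m (fun i => (g (q i)).map ρ) fun i j hij =>
      hq (hg ((map_inj hρ (hsub i) (hsub j)).1 hij))
    refine (congrArg (𝒞 m) ?_).mp h1
    ext i j
    show (_ ≠ _ ∧ _) ↔ E (q i) (q j)
    rw [hE, Ne, map_inj hρ (hsub i) (hsub j), edge_num hρ k (hsub i) (hsub j),
      edge_num hρ k (hsub j) (hsub i), Vertex.layer_map, Vertex.layer_map]

/-- infinite grids -/
theorem contains_grid {𝒞 : (n : ℕ) → SimpleGraph (Fin n) → Prop}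
    (hC : ∀ n, Contains 𝒞 (grid n)) {ι : Type} [LinearOrder ι]
    {E : ℕ → ℕ → Prop} (g : ℕ → ι × ι) (hg : Function.Injective g)
    (hE : ∀ u v, E u v ↔ g u ≠ g v ∧ ((g u).1 = (g v).1 ∨ (g u).2 = (g v).2 ∨
      ((g u).1 < (g v).1 ↔ (g u).2 < (g v).2))) : LocallyIn 𝒞 E := by
  classical
  have hsymm : ∀ u v, E u v → E v u := by
    intro u v h
    rw [hE] at h ⊢
    obtain ⟨h1, h2⟩ := h
    refine ⟨h1.symm, ?_⟩
    rcases h2 with h2 | h2 | h2
    · exact Or.inl h2.symm
    · exact Or.inr (Or.inl h2.symm)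
    · by_cases h3 : (g u).1 = (g v).1
      · exact Or.inl h3.symm
      · by_cases h4 : (g u).2 = (g v).2
        · exact Or.inr (Or.inl h4.symm)
        · refine Or.inr (Or.inr ?_)
          rw [lt_iff_not_ge, lt_iff_not_ge (a := (g v).2), not_iff_not,
            le_iff_lt_or_eq, le_iff_lt_or_eq]
          tauto
  refine ⟨⟨E, ⟨fun u v h => hsymm u v h⟩, ⟨fun u h => ((hE u u).1 h).1 rfl⟩⟩,
    fun u v => Iff.rfl, ?_⟩
  intro m q hq
  obtain ⟨n, ρ, hρ⟩ := numbering (Finset.univ.biUnion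
    fun i : Fin m => ({(g (q i)).1, (g (q i)).2} : Finset ι))
  have hm1 : ∀ i : Fin m, (g (q i)).1 ∈ Finset.univ.biUnion
      fun i : Fin m => ({(g (q i)).1, (g (q i)).2} : Finset ι) := fun i =>
    Finset.mem_biUnion.2 ⟨i, Finset.mem_univ _, by simp⟩
  have hm2 : ∀ i : Fin m, (g (q i)).2 ∈ Finset.univ.biUnion
      fun i : Fin m => ({(g (q i)).1, (g (q i)).2} : Finset ι) := fun i =>
    Finset.mem_biUnion.2 ⟨i, Finset.mem_univ _, by simp⟩
  have hinj : ∀ i j, ((ρ (g (q i)).1, ρ (g (q i)).2) : Fin n × Fin n) =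
      (ρ (g (q j)).1, ρ (g (q j)).2) ↔ g (q i) = g (q j) := by
    intro i j
    rw [Prod.ext_iff, Prod.ext_iff]
    exact and_congr (eq_num hρ (hm1 i) (hm1 j)) (eq_num hρ (hm2 i) (hm2 j))
  have h1 := hC n m (fun i => (ρ (g (q i)).1, ρ (g (q i)).2)) fun i j hij =>
    hq (hg ((hinj i j).1 hij))
  refine (congrArg (𝒞 m) ?_).mp h1
  ext i j
  show (_ ≠ _ ∧ _) ↔ E (q i) (q j)
  rw [hE, Ne, hinj]
  show _ ∧ (ρ (g (q i)).1 = ρ (g (q j)).1 ∨ ρ (g (q i)).2 = ρ (g (q j)).2 ∨
    (ρ (g (q i)).1 < ρ (g (q j)).1 ↔ ρ (g (q i)).2 < ρ (g (q j)).2)) ↔ _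
  rw [eq_num hρ (hm1 i) (hm1 j), eq_num hρ (hm2 i) (hm2 j), hρ _ (hm1 i) _ (hm1 j),
    hρ _ (hm2 i) _ (hm2 j)]

end Pool.Agent.Y561.MI
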